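import Pool.Agent.Y548.SSP.Over

/-!
# Subset sum is in `NP` for virtually metabelian groups
-/

namespace Pool.Agent.NPC.Y548

open Pool.Agent.NPC.SSP648 Pool.Agent.H648R3.SSP

theorem subsetSum_nil {G : Type*} [Group G] {n : ℕ} (g : Fin n → G) (v : List (Fin n × Bool)) :
    SubsetSum g (([], v) : List (List (Fin n × Bool)) × List (Fin n × Bool)) ↔
      wval g v = 1 := by
  constructor
  · rintro ⟨ε, h⟩
    simpa using h
  · intro h
    exact ⟨fun _ => false, by simpa using h⟩

section virt

variable {G : Type*} [Group G] {n s N : ℕ} (g : Fin n → G) {M : Subgroup G}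
  (e : G ⧸ M ≃ Fin s) (e2 : (Fin n × Bool) × Fin s ≃ Fin N)

/-- The representative of a coset. -/
noncomputable def rep (c : Fin s) : G := (e.symm c).out

theorem coe_rep (c : Fin s) : ((rep e c : G) : G ⧸ M) = e.symm c := by
  rw [rep, QuotientGroup.out_eq']

/-- The transition function on cosets. -/
noncomputable def del (p : (Fin n × Bool) × Fin s) : Fin s := e (lval g p.1 • e.symm p.2)

theorem outM_mem (p : (Fin n × Bool) × Fin s) :
    (rep e (del g e p))⁻¹ * (lval g p.1 * rep e p.2) ∈ M := by
  rw [← QuotientGroup.eq, coe_rep, del, Equiv.symm_apply_apply, ← coe_rep e p.2]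
  rfl

/-- The output of a transition. -/
noncomputable def outM (k : Fin N) : M :=
  ⟨(rep e (del g e (e2.symm k)))⁻¹ * (lval g (e2.symm k).1 * rep e (e2.symm k).2),
    outM_mem g e _⟩

/-- One step of the rewriting. -/
noncomputable def stp (l : Fin n × Bool) (st : Fin s × List (Fin N × Bool)) :
    Fin s × List (Fin N × Bool) :=
  (del g e (l, st.1), (e2 (l, st.1), true) :: st.2)

/-- The rewriting. -/
noncomputable def tr (w : List (Fin n × Bool)) : Fin s × List (Fin N × Bool) :=
  w.foldr (stp g e e2) (e ((1 : G) : G ⧸ M), [])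

theorem tr_spec (w : List (Fin n × Bool)) :
    wval g w * rep e (e ((1 : G) : G ⧸ M)) =
      rep e (tr g e e2 w).1 * ((wval (outM g e e2) (tr g e e2 w).2 : M) : G) := by
  induction w with
  | nil => simp [tr]
  | cons l w ih =>
    have h1 : tr g e e2 (l :: w) = stp g e e2 l (tr g e e2 w) := rfl
    rw [h1, wval_cons, mul_assoc, ih, stp]
    simp only
    rw [wval_cons, Subgroup.coe_mul]
    have h2 : ((lval (outM g e e2) (e2 (l, (tr g e e2 w).1), true) : M) : G) =
        (rep e (del g e (l, (tr g e e2 w).1)))⁻¹ * (lval g l * rep e (tr g e e2 w).1) := by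
      simp [lval, outM]
    rw [h2]
    group

theorem tr_iff (w : List (Fin n × Bool)) : wval g w = 1 ↔
    (tr g e e2 w).1 = e ((1 : G) : G ⧸ M) ∧ wval (outM g e e2) (tr g e e2 w).2 = 1 := by
  have h := tr_spec g e e2 w
  constructor
  · intro hw
    rw [hw, one_mul] at h
    have h1 : (tr g e e2 w).1 = e ((1 : G) : G ⧸ M) := by
      have h2 : e.symm (e ((1 : G) : G ⧸ M)) = e.symm (tr g e e2 w).1 := by
        rw [← coe_rep e, ← coe_rep e (tr g e e2 w).1, h, QuotientGroup.eq]
        have : (rep e (tr g e e2 w).1 * ((wval (outM g e e2) (tr g e e2 w).2 : M) : G))⁻¹ *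
            rep e (tr g e e2 w).1 =
            ((wval (outM g e e2) (tr g e e2 w).2 : M) : G)⁻¹ := by group
        rw [this]
        exact M.inv_mem (SetLike.coe_mem _)
      exact (e.symm.injective h2).symm
    refine ⟨h1, ?_⟩
    rw [h1] at h
    apply Subtype.ext
    rw [Subgroup.coe_one]
    exact (mul_eq_left.1 h.symm)
  · rintro ⟨h1, h2⟩
    rw [h1, h2, Subgroup.coe_one, mul_one] at h
    exact mul_eq_right.1 h

theorem length_foldr_stp (w : List (Fin n × Bool)) (st : Fin s × List (Fin N × Bool)) :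
    (w.foldr (stp g e e2) st).2.length = w.length + st.2.length := by
  induction w with
  | nil => simp
  | cons l w ih =>
    rw [List.foldr_cons, stp]
    simp only [List.length_cons, ih]
    omega

theorem poly_tr : Poly (tr g e e2) := by
  have hs : Poly (fun p : List (Fin n × Bool) × (Fin n × Bool) × (Fin s × List (Fin N × Bool)) =>
      stp g e e2 p.2.1 p.2.2) := by
    have h0 : Poly (fun p : List (Fin n × Bool) × (Fin n × Bool) ×
        (Fin s × List (Fin N × Bool)) => (p.2.1, p.2.2.1)) :=
      Poly.pair (Poly.fst (Poly.snd Poly.id)) (Poly.fst (Poly.snd (Poly.snd Poly.id)))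
    exact Poly.pair ((poly_finite (del g e)).comp h0)
      (Poly.cons (Poly.pair ((poly_finite e2).comp h0) (Poly.const true))
        (Poly.snd (Poly.snd (Poly.snd Poly.id))))
  refine Poly.foldr (l := fun w : List (Fin n × Bool) => w)
    (s := fun _ => (e ((1 : G) : G ⧸ M), ([] : List (Fin N × Bool))))
    (F := fun _ l st => stp g e e2 l st) Poly.id (Poly.const _) hs
    (Polynomial.C (4 * s + 1) + Polynomial.X * Polynomial.C (4 * N + 6) + 2) ?_
  intro w k _
  have h1 := length_foldr_stp g e e2 (w.drop k) (e ((1 : G) : G ⧸ M), [])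
  rcases hst : (w.drop k).foldr (stp g e e2) (e ((1 : G) : G ⧸ M), []) with ⟨c, u⟩
  rw [hst] at h1
  simp only [List.length_nil, add_zero, List.length_drop] at h1
  have h2 : sz u ≤ u.length * (4 * N + 6) + 1 := by
    refine sz_le_length_mul _ (4 * N + 5) fun a _ => ?_
    obtain ⟨i, b⟩ := a
    have e3 := sz_fin_le i
    have e4 := sz_bool_le b
    rw [sz_pair]
    omega
  have h3 := length_lt_sz w
  have h4 := sz_fin_le c
  have h5 : u.length * (4 * N + 6) ≤ sz w * (4 * N + 6) :=
    Nat.mul_le_mul_right _ (by omega)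
  rw [sz_pair]
  simp only [Polynomial.eval_add, Polynomial.eval_mul, Polynomial.eval_C, Polynomial.eval_X,
    Polynomial.eval_ofNat]
  omega

include e e2 in
theorem inNPP_virt_aux (hM : InNPP (SubsetSum (outM g e e2))) : InNPP (SubsetSum g) := by
  have hword : Poly (fun p : (List (List (Fin n × Bool)) × List (Fin n × Bool)) × List Bool =>
      selW p.2 p.1.1 ++ winv p.1.2) := by
    refine Poly.append ?_ ?_
    · refine Poly.flatMap (F := fun _ (q : Bool × List (Fin n × Bool)) =>
        if q.1 then q.2 else []) (Poly.zip (Poly.snd Poly.id) (Poly.fst (Poly.fst Poly.id))) ?_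
      exact (Poly.cond (Poly.fst (Poly.snd Poly.id)) (Poly.snd (Poly.snd Poly.id))
        (Poly.const [])).congr fun q => by cases q.2.1 <;> rfl
    · refine Poly.reverse (Poly.map (F := fun _ (l : Fin n × Bool) => (l.1, !l.2))
        (Poly.snd (Poly.fst Poly.id)) ?_)
      exact Poly.pair (Poly.fst (Poly.snd Poly.id)) (Poly.not (Poly.snd (Poly.snd Poly.id)))
  have htr := (poly_tr g e e2).comp hword
  refine inNPP_exists (α := List (List (Fin n × Bool)) × List (Fin n × Bool)) (β := List Bool)
    hM (f := fun p => (([] : List (List (Fin N × Bool))),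
      (tr g e e2 (selW p.2 p.1.1 ++ winv p.1.2)).2))
    (Poly.pair (Poly.const _) (Poly.snd htr))
    (R := fun p => decide (p.2.length = p.1.1.length) &&
      decide ((tr g e e2 (selW p.2 p.1.1 ++ winv p.1.2)).1 = e ((1 : G) : G ⧸ M)))
    (Poly.and (Poly.decide_eq (Poly.length (Poly.snd Poly.id))
      (Poly.length (Poly.fst (Poly.fst Poly.id)))) (Poly.decide_eq (Poly.fst htr) (Poly.const _)))
    (Polynomial.C 4 * Polynomial.X + 1) ?_ ?_
  · intro I hI
    obtain ⟨b, hb, hw⟩ := (subsetSum_iff g I).1 hI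
    obtain ⟨h1, h2⟩ := (tr_iff g e e2 _).1 hw
    refine ⟨b, ?_, ?_, (subsetSum_nil _ _).2 h2⟩
    · have e1 := sz_listBool_le b
      have e2 := length_lt_sz I.1
      have e3 : sz I = sz I.1 + sz I.2 + 1 := sz_pair _ _
      simp only [Polynomial.eval_add, Polynomial.eval_mul, Polynomial.eval_C, Polynomial.eval_X,
        Polynomial.eval_one]
      omega
    · simp only [hb, h1, decide_true, Bool.and_self]
  · intro I b hR hQ
    simp only [Bool.and_eq_true, decide_eq_true_eq] at hR
    exact (subsetSum_iff g I).2 ⟨b, hR.1, (tr_iff g e e2 _).2 ⟨hR.2, (subsetSum_nil _ _).1 hQ⟩⟩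

end virt

/-- The subset sum problem of a virtually metabelian group is in `NP`. -/
theorem inNPP_virt {G : Type*} [Group G] {n : ℕ} (g : Fin n → G)
    (hv : ∃ M : Subgroup G, M.FiniteIndex ∧ ∀ a ∈ commutator M, ∀ b ∈ commutator M,
      a * b = b * a) : InNPP (SubsetSum g) := by
  obtain ⟨M, hM, hc⟩ := hv
  have : Metab M := ⟨hc⟩
  have hfin : Finite (G ⧸ M) := inferInstance
  obtain ⟨s, ⟨e⟩⟩ := Finite.exists_equiv_fin (G ⧸ M)
  exact inNPP_virt_aux g e (Fintype.equivFin ((Fin n × Bool) × Fin s)) (inNPP_subsetSum _)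

end Pool.Agent.NPC.Y548
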