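import Pool.Agent.Y548.SSP.Unip2
import Pool.Agent.Y548.SSP.Virt

/-!
# Finitely generated abelian-by-(virtually nilpotent) groups: if not virtually nilpotent, they
contain a two-generated metabelian group that is not virtually nilpotent
-/

namespace Pool.Agent.Y548.Unip

universe u

open scoped commutatorElement

/-- Commuting elements. -/
class Comm {H : Type u} [Group H] (A : Subgroup H) : Prop where
  comm : ∀ a ∈ A, ∀ b ∈ A, a * b = b * a

instance {H : Type u} [Group H] (A : Subgroup H) [Comm A] : CommGroup A :=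
  { (inferInstance : Group A) with
    mul_comm := fun a b => Subtype.ext (Comm.comm a.1 a.2 b.1 b.2) }

section

variable {H : Type u} [Group H] (A : Subgroup H) [A.Normal] [Comm A]

/-- The conjugation action. -/
noncomputable def rho : H →* Module.End ℤ (Additive A) where
  toFun x := (MonoidHom.toAdditive (MulAut.conjNormal x : MulAut A).toMonoidHom).toIntLinearMap
  map_one' := by
    ext a
    simp
  map_mul' x y := by
    ext a
    simp

theorem rho_apply (x : H) (a : A) :
    (((rho A x (Additive.ofMul a)).toMul : A) : H) = x * a * x⁻¹ := rfl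

theorem rho_apply' (x : H) (v : Additive A) :
    (((rho A x v).toMul : A) : H) = x * (v.toMul : A) * x⁻¹ := rfl

theorem D_apply (x : H) (m : ℕ) (v : Additive A) :
    (((D (rho A) x m v).toMul : A) : H) = ⁅x ^ m, ((v.toMul : A) : H)⁆ := by
  rw [D, ← map_pow, LinearMap.sub_apply, Module.End.one_apply, toMul_sub, div_eq_mul_inv,
    Subgroup.coe_mul, rho_apply', commutatorElement_def]
  rfl

/-- The subgroup given by an additive subgroup. -/
def subF (X : AddSubgroup (Additive A)) : Subgroup H where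
  carrier := {x | ∃ h : x ∈ A, Additive.ofMul (⟨x, h⟩ : A) ∈ X}
  mul_mem' := by
    rintro a b ⟨ha, ha'⟩ ⟨hb, hb'⟩
    exact ⟨A.mul_mem ha hb, X.add_mem ha' hb'⟩
  one_mem' := ⟨A.one_mem, X.zero_mem⟩
  inv_mem' := by
    rintro a ⟨ha, ha'⟩
    exact ⟨A.inv_mem ha, X.neg_mem ha'⟩

theorem subF_normal {X : AddSubgroup (Additive A)} (hX : Stab (rho A) X) : (subF A X).Normal := by
  refine ⟨?_⟩
  rintro y ⟨h, h'⟩ x
  have h2 : x * y * x⁻¹ ∈ A := Subgroup.Normal.conj_mem inferInstance y h x
  refine ⟨h2, ?_⟩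
  have h3 := hX x _ h'
  exact h3

theorem FGm_of_normalClosure {T : Set H} (hT : T.Finite) (hTA : Subgroup.normalClosure T = A) :
    FGm (rho A) ⊤ ⊥ := by
  have hTA' : T ⊆ A := by rw [← hTA]; exact Subgroup.subset_normalClosure
  refine ⟨{v | ((v.toMul : A) : H) ∈ T}, ?_, fun _ _ => trivial, ?_⟩
  · refine hT.preimage ?_
    intro v _ w _ h
    exact Additive.toMul.injective (Subtype.ext h)
  · intro X hX _ hS v _
    have := subF_normal A hX
    have h1 : Subgroup.normalClosure T ≤ subF A X := by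
      refine Subgroup.normalClosure_le_normal ?_
      intro t ht
      exact ⟨hTA' ht, hS (show ((Additive.toMul (Additive.ofMul (⟨t, hTA' ht⟩ : A)) : A) : H) ∈ T
        from ht)⟩
    rw [hTA] at h1
    obtain ⟨_, h2⟩ := h1 (v.toMul : A).2
    exact h2

end

/-- The group is virtually nilpotent if the action is locally virtually unipotent. -/
theorem virt_nilp {H : Type u} [Group H] [Group.FG H] (c : ℕ) [Comm (lcs H c)]
    (hl : ∀ (t : H) (v : Additive (lcs H c)), ∃ m, 1 ≤ m ∧ ∃ k,
      ((D (rho (lcs H c)) t m) ^ k) v = 0) :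
    ∃ K : Subgroup H, K.FiniteIndex ∧ Group.IsNilpotent K := by
  obtain ⟨T, hT, hTc⟩ := fin_lcs (Q := H) c
  have hst : Stab (rho (lcs H c)) ⊤ := fun _ _ _ => trivial
  have hsb : Stab (rho (lcs H c)) ⊥ := by
    intro q w hw
    rw [AddSubgroup.mem_bot] at hw ⊢
    rw [hw, map_zero]
  obtain ⟨Q0, hQ0, r, hr⟩ := main c (rho (lcs H c)) ⊤ ⊥ hst hsb bot_le
    (FGm_of_normalClosure _ hT hTc) (fun q w _ => by
      obtain ⟨m, hm, k, hk⟩ := hl q w
      exact ⟨m, hm, k, by rw [AddSubgroup.mem_bot]; exact hk⟩) (by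
      intro q hq w _
      rw [AddSubgroup.mem_bot, sub_eq_zero]
      apply Additive.toMul.injective
      apply Subtype.ext
      rw [rho_apply', Comm.comm q hq _ (w.toMul).2, mul_inv_cancel_right])
  refine ⟨Q0, hQ0, ?_⟩
  rw [Subgroup.isNilpotent_iff_lowerCentralSeries]
  refine ⟨c + r, ?_⟩
  have key : ∀ j ≤ r, Q0.lowerCentralSeries (c + j) ≤
      subF (lcs H c) (NilF (rho (lcs H c)) Q0 ⊥ (r - j)) := by
    intro j
    induction j with
    | zero =>
      intro _ x hx
      have hx' : x ∈ lcs H c := lcs_mono c hx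
      exact ⟨hx', hr trivial⟩
    | succ j ih =>
      intro hj
      have ih' := ih (by omega)
      change ⁅Q0.lowerCentralSeries (c + j), Q0⁆ ≤ _
      rw [Subgroup.commutator_le]
      intro x hx q hq
      obtain ⟨h1, h2⟩ := ih' hx
      have h3 : r - j = (r - (j + 1)) + 1 := by omega
      rw [h3, mem_NilF_succ] at h2
      have h4 := AddSubgroup.neg_mem _ (h2 q hq)
      have h5 : ⁅x, q⁆ = (((-((rho (lcs H c)) q (Additive.ofMul (⟨x, h1⟩ : lcs H c)) -
          Additive.ofMul (⟨x, h1⟩ : lcs H c))).toMul : lcs H c) : H) := by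
        rw [neg_sub, toMul_sub, div_eq_mul_inv, Subgroup.coe_mul, Subgroup.coe_inv, rho_apply',
          commutatorElement_def]
        change x * q * x⁻¹ * q⁻¹ = x * (q * x * q⁻¹)⁻¹
        group
      rw [h5]
      exact ⟨SetLike.coe_mem _, h4⟩
  have h1 := key r le_rfl
  rw [Nat.sub_self] at h1
  rw [eq_bot_iff]
  intro x hx
  obtain ⟨h2, h3⟩ := h1 hx
  have h4 : Additive.ofMul (⟨x, h2⟩ : lcs H c) = 0 := (AddSubgroup.mem_bot).1 h3
  rw [Subgroup.mem_bot]
  exact congrArg (fun v : Additive (lcs H c) => ((v.toMul : lcs H c) : H)) h4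

section two

variable {H : Type u} [Group H] (A : Subgroup H) [A.Normal] [Comm A]

/-- The group generated by an element of `A` and another element. -/
def two (a t : H) : Subgroup H := Subgroup.closure {a, t}

theorem two_metab {a t : H} (ha : a ∈ A) :
    ∀ x ∈ commutator (two a t), ∀ y ∈ commutator (two a t), x * y = y * x := by
  have h1 : two a t ≤ (Subgroup.zpowers (QuotientGroup.mk' A t)).comap (QuotientGroup.mk' A) := by
    rw [two, Subgroup.closure_le]
    intro x hx
    rcases hx with rfl | hx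
    · change QuotientGroup.mk' A x ∈ Subgroup.zpowers (QuotientGroup.mk' A t)
      have : QuotientGroup.mk' A x = 1 := (QuotientGroup.eq_one_iff _).2 ha
      rw [this]
      exact Subgroup.one_mem _
    · have hx' : x = t := hx
      subst hx'
      exact Subgroup.mem_zpowers _
  have h2 : commutator (two a t) ≤ A.subgroupOf (two a t) := by
    rw [commutator_def, Subgroup.commutator_le]
    intro x _ y _
    rw [Subgroup.mem_subgroupOf]
    obtain ⟨i, hi⟩ := h1 x.2
    obtain ⟨j, hj⟩ := h1 y.2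
    change ⁅(x : H), (y : H)⁆ ∈ A
    rw [← mk_comm_iff, ← hi, ← hj]
    exact ((Commute.refl (QuotientGroup.mk' A t)).zpow_zpow i j).eq
  intro x hx y hy
  exact Subtype.ext (Comm.comm (A := A) _ (h2 hx) _ (h2 hy))

theorem lcs_le {Q : Type u} [Group Q] {S S' : Subgroup Q} (h : S ≤ S') (n : ℕ) :
    S.lowerCentralSeries n ≤ S'.lowerCentralSeries n := by
  induction n with
  | zero => exact h
  | succ n ih => exact Subgroup.commutator_mono ih h

theorem two_not {a t : H} (ha : a ∈ A)
    (hl : ∀ m, 1 ≤ m → ∀ k, ((D (rho A) t m) ^ k) (Additive.ofMul (⟨a, ha⟩ : A)) ≠ 0) :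
    ¬ ∃ K : Subgroup (two a t), K.FiniteIndex ∧ Group.IsNilpotent K := by
  rintro ⟨K, hK, hnil⟩
  rw [Subgroup.isNilpotent_iff_lowerCentralSeries] at hnil
  obtain ⟨n, hn⟩ := hnil
  have ha' : a ∈ two a t := Subgroup.subset_closure (Or.inl rfl)
  have ht' : t ∈ two a t := Subgroup.subset_closure (Or.inr rfl)
  have hfi : K.normalCore.FiniteIndex := inferInstance
  obtain ⟨m, hm, _, htm⟩ := Subgroup.exists_pow_mem_of_index_ne_zero hfi.index_ne_zero
    (⟨t, ht'⟩ : two a t)
  have key : ∀ i, ∃ x ∈ K.normalCore.lowerCentralSeries i, ((x : two a t) : H) =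
      (((((D (rho A) t m) ^ (i + 1)) (Additive.ofMul (⟨a, ha⟩ : A))).toMul : A) : H) := by
    intro i
    induction i with
    | zero =>
      refine ⟨⁅(⟨t, ht'⟩ : two a t) ^ m, ⟨a, ha'⟩⁆, ?_, ?_⟩
      · change _ ∈ K.normalCore
        rw [commutatorElement_def, mul_assoc, mul_assoc, ← mul_assoc (⟨a, ha'⟩ : two a t)]
        exact Subgroup.mul_mem _ htm (Subgroup.Normal.conj_mem inferInstance _
          (Subgroup.inv_mem _ htm) _)
      · rw [zero_add, pow_one, D_apply]
        rfl
    | succ i ih =>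
      obtain ⟨x, hx, hxe⟩ := ih
      refine ⟨⁅(⟨t, ht'⟩ : two a t) ^ m, x⁆, ?_, ?_⟩
      · have h1 : ⁅x, (⟨t, ht'⟩ : two a t) ^ m⁆ ∈ K.normalCore.lowerCentralSeries (i + 1) :=
          Subgroup.commutator_mem_commutator hx htm
        have h2 := Subgroup.inv_mem _ h1
        rwa [commutatorElement_inv] at h2
      · rw [pow_succ', Module.End.mul_apply, D_apply, ← hxe]
        rfl
  obtain ⟨x, hx, hxe⟩ := key n
  have h1 : x = 1 := by
    have := lcs_le (Subgroup.normalCore_le K) n hx
    rwa [hn, Subgroup.mem_bot] at this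
  rw [h1] at hxe
  refine hl m hm (n + 1) ?_
  apply Additive.toMul.injective
  apply Subtype.ext
  rw [← hxe]
  rfl

end two

/-- A finitely generated group that is abelian-by-nilpotent and not virtually nilpotent contains a
metabelian group with two generators that is not virtually nilpotent. -/
theorem exists_two {H : Type u} [Group H] [Group.FG H] (c : ℕ)
    (hc : ∀ a ∈ lcs H c, ∀ b ∈ lcs H c, a * b = b * a)
    (hnot : ¬ ∃ K : Subgroup H, K.FiniteIndex ∧ Group.IsNilpotent K) :
    ∃ L : Subgroup H, Group.FG L ∧ (∀ x ∈ commutator L, ∀ y ∈ commutator L, x * y = y * x) ∧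
      ¬ ∃ K : Subgroup L, K.FiniteIndex ∧ Group.IsNilpotent K := by
  have : Comm (lcs H c) := ⟨hc⟩
  have h1 : ∃ (t : H) (v : Additive (lcs H c)), ∀ m, 1 ≤ m → ∀ k,
      ((D (rho (lcs H c)) t m) ^ k) v ≠ 0 := by
    by_contra hcon
    push Not at hcon
    exact hnot (virt_nilp c fun t v => by
      obtain ⟨m, hm, k, hk⟩ := hcon t v
      exact ⟨m, hm, k, hk⟩)
  obtain ⟨t, v, htv⟩ := h1
  refine ⟨two ((v.toMul : lcs H c) : H) t, ?_, two_metab (lcs H c) (v.toMul).2,
    two_not (lcs H c) (v.toMul).2 htv⟩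
  rw [Group.fg_iff_subgroup_fg]
  rw [Subgroup.fg_iff]
  exact ⟨{((v.toMul : lcs H c) : H), t}, rfl, by simp⟩

end Pool.Agent.Y548.Unip

namespace Pool.Agent.Y548.Unip

universe u

open Pool.Agent.NPC Pool.Agent.NPC.SSP648 Pool.Agent.H648R3.SSP

/-- The same for abelian-by-(virtually nilpotent) groups. -/
theorem exists_metab {H : Type u} [Group H] [Group.FG H] (A : Subgroup H) [A.Normal]
    (hA : ∀ a ∈ A, ∀ b ∈ A, a * b = b * a)
    (hB : ∃ B : Subgroup (H ⧸ A), B.FiniteIndex ∧ Group.IsNilpotent B)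
    (hnot : ¬ ∃ K : Subgroup H, K.FiniteIndex ∧ Group.IsNilpotent K) :
    ∃ (H1 : Subgroup H) (L : Subgroup H1), Group.FG L ∧
      (∀ x ∈ commutator L, ∀ y ∈ commutator L, x * y = y * x) ∧
      ¬ ∃ K : Subgroup L, K.FiniteIndex ∧ Group.IsNilpotent K := by
  obtain ⟨B, hBf, hBn⟩ := hB
  rw [Subgroup.isNilpotent_iff_lowerCentralSeries] at hBn
  obtain ⟨c, hc⟩ := hBn
  set H1 : Subgroup H := B.comap (QuotientGroup.mk' A) with hH1
  have hfi : H1.FiniteIndex := by
    refine ⟨?_⟩
    rw [hH1, Subgroup.index_comap_of_surjective _ (QuotientGroup.mk'_surjective A)]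
    exact hBf.index_ne_zero
  have hfg : Group.FG H1 := Subgroup.fg_of_index_ne_zero H1
  refine ⟨H1, exists_two c ?_ ?_⟩
  · have h1 : H1.lowerCentralSeries c ≤ A := by
      intro x hx
      have h2 : QuotientGroup.mk' A x ∈ (H1.lowerCentralSeries c).map (QuotientGroup.mk' A) :=
        ⟨x, hx, rfl⟩
      rw [Subgroup.map_lowerCentralSeries] at h2
      have h3 := lcs_le (show H1.map (QuotientGroup.mk' A) ≤ B from Subgroup.map_comap_le _ _) c h2
      rw [hc, Subgroup.mem_bot] at h3
      exact (QuotientGroup.eq_one_iff _).1 h3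
    have h2 : ∀ x ∈ lcs H1 c, (x : H) ∈ A := by
      intro x hx
      refine h1 ?_
      rw [← Subgroup.top_subtype_lowerCentralSeries]
      exact ⟨x, hx, rfl⟩
    intro a ha b hb
    exact Subtype.ext (hA _ (h2 a ha) _ (h2 b hb))
  · rintro ⟨K, hK, hnil⟩
    refine hnot ⟨K.map H1.subtype, ⟨?_⟩, ?_⟩
    · rw [Subgroup.index_map_subtype]
      exact mul_ne_zero hK.index_ne_zero hfi.index_ne_zero
    · have e : K ≃* K.map H1.subtype := K.equivMapOfInjective H1.subtype H1.subtype_injective
      exact Group.nilpotent_of_mulEquiv e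

/-- Hardness for groups containing a finitely generated abelian-by-(virtually nilpotent) group
that is not virtually nilpotent. -/
theorem hard_abNil {G : Type u} [Group G] {n : ℕ} (g : Fin n → G) (H : Subgroup G)
    (hfg : Group.FG H) (hH : H ≤ Subgroup.closure (Set.range g)) (A : Subgroup H) [A.Normal]
    (hA : ∀ a ∈ A, ∀ b ∈ A, a * b = b * a)
    (hB : ∃ B : Subgroup (H ⧸ A), B.FiniteIndex ∧ Group.IsNilpotent B)
    (hnot : ¬ ∃ K : Subgroup H, K.FiniteIndex ∧ Group.IsNilpotent K) :
    NPHardP (SubsetSum g) := by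
  obtain ⟨H1, L, hL, hc, hn⟩ := exists_metab A hA hB hnot
  have : Metab L := ⟨hc⟩
  exact NPC.Y548.hard_metab hn g ((H.subtype.comp H1.subtype).comp L.subtype)
    ((H.subtype_injective.comp H1.subtype_injective).comp L.subtype_injective)
    (fun x => hH (SetLike.coe_mem _))

end Pool.Agent.Y548.Unip
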