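import Pool.Agent.NPC.Dec

/-!
# Closure of `NP` under polynomially bounded existential quantification and reductions
-/

namespace Pool.Agent.NPC.Y548


/-- From encoded lists of booleans to raw bit strings. -/
theorem PC_rawOut : PC (bits : List Bool → List Bool) (fun x : List Bool => x) (fun x => x) := by
  refine ⟨Cmd.seq (Cmd.loop 0 (Cmd.cases 0 Cmd.skip (Cmd.pop 0)
    (Cmd.seq (Cmd.pop 0) (Cmd.cases 0 Cmd.skip
      (Cmd.seq (Cmd.pop 0) (Cmd.push 1 false))
      (Cmd.seq (Cmd.pop 0) (Cmd.seq (Cmd.pop 0) (Cmd.seq (Cmd.pop 0) (Cmd.push 1 true))))))))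
    (mv 1 0), Polynomial.C 20 * Polynomial.X + Polynomial.C 20, fun x => ?_⟩
  rw [inp_eq_st, inp_eq_st]
  have key : ∀ x acc : List Bool, Runs (Cmd.loop 0 (Cmd.cases 0 Cmd.skip (Cmd.pop 0)
    (Cmd.seq (Cmd.pop 0) (Cmd.cases 0 Cmd.skip
      (Cmd.seq (Cmd.pop 0) (Cmd.push 1 false))
      (Cmd.seq (Cmd.pop 0) (Cmd.seq (Cmd.pop 0) (Cmd.seq (Cmd.pop 0) (Cmd.push 1 true))))))))
      (st (bits x) acc []) (st [] (x.reverse ++ acc) []) (10 * x.length + 10) := by
    intro x
    induction x with
    | nil =>
      intro acc
      refine (Runs.loopCons (by simp [bits, T.enc]) (Runs.casesFalse (l := []) rfl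
        (Runs.pop _ 0)) (Runs.loopNil (by simp [bits, T.enc]))).conv rfl ?_ (by simp)
      simp [bits, T.enc]
    | cons b x ih =>
      intro acc
      have ih' := ih (b :: acc)
      have hb : Runs (Cmd.cases 0 Cmd.skip (Cmd.pop 0)
        (Cmd.seq (Cmd.pop 0) (Cmd.cases 0 Cmd.skip
        (Cmd.seq (Cmd.pop 0) (Cmd.push 1 false))
        (Cmd.seq (Cmd.pop 0) (Cmd.seq (Cmd.pop 0) (Cmd.seq (Cmd.pop 0) (Cmd.push 1 true)))))))
        (st (bits (b :: x)) acc []) (st (bits x) (b :: acc) []) 7 := by
        cases b with
        | false =>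
          refine (Runs.casesTrue (l := false :: bits x) rfl ((Runs.pop _ 0).seq
            (Runs.casesFalse (l := bits x) (by simp [bits, T.enc]) ((Runs.pop _ 0).seq
            (Runs.push _ 1 false))))).conv rfl ?_ (by simp)
          simp [bits, T.enc]
        | true =>
          refine (Runs.casesTrue (l := true :: false :: false :: bits x) rfl ((Runs.pop _ 0).seq
            (Runs.casesTrue (l := false :: false :: bits x) (by simp [bits, T.enc])
              ((Runs.pop _ 0).seq ((Runs.pop _ 0).seq ((Runs.pop _ 0).seq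
              (Runs.push _ 1 true))))))).conv rfl ?_ (by simp)
          simp [bits, T.enc]
      refine (Runs.loopCons (by simp [bits, T.enc]) hb ih').conv rfl ?_ ?_
      · simp
      · simp; omega
  have h3 := key x []
  rw [List.append_nil] at h3
  refine (h3.seq (mv_runs (i := 1) (j := 0) (by decide) x.reverse _ (st x [] []) rfl
    (by simp))).mono ?_
  have h4 := sz_listBool_ge x
  rw [← bits_length] at h4
  simp only [List.length_reverse, Polynomial.eval_add, Polynomial.eval_mul, Polynomial.eval_C,
    Polynomial.eval_X]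
  omega

/-- A raw polynomial-time function is a typed polynomial-time function. -/
theorem poly_of_polyTime {V : List Bool → List Bool} (hV : PolyTime V) : Poly V := by
  have h1 : PC (fun x : List Bool => x) (fun x : List Bool => x) V :=
    H642R2.TMSim.polyTime_toPC hV
  exact PC.comp (g := fun x => x) (f := fun x => V x) PC.rawIn
    (PC.comp (g := V) (f := fun x => x) h1 PC_rawOut)

/-- The code of a polynomial-time computable object, as data. -/
theorem poly_bits {α γ : Type} [TEnc α] [TEnc γ] {f : α → γ} (hf : Poly f) :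
    Poly (fun a => bits (f a)) := by
  obtain ⟨c, p, h⟩ := hf
  have h2 : PC (bits : α → List Bool) (fun x : List Bool => x) (fun a => bits (f a)) :=
    ⟨c, p, h⟩
  exact PC.comp (g := fun x => x) (f := fun a => bits (f a)) PC.rawIn h2

theorem poly_pairBits {α : Type} [TEnc α] {x w : α → List Bool} (hx : Poly x) (hw : Poly w) :
    Poly (fun a => pairBits (x a) (w a)) :=
  Poly.append (Poly.flatMap (F := fun _ b => [true, b]) hx
    (Poly.cons (Poly.const true) (Poly.cons (Poly.snd Poly.id) (Poly.const []))))
    (Poly.cons (Poly.const false) hw)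

/-- `NP` is closed under bounded existential quantification and reductions. -/
theorem inNPP_exists {α β γ : Type} [TEnc α] [TEnc β] [TEnc γ] [TDec α] [TDec β]
    {Q : γ → Prop} (hQ : InNPP Q) {f : α × β → γ} (hf : Poly f) {R : α × β → Bool}
    (hR : Poly R) (q : Polynomial ℕ) {P : α → Prop}
    (h : ∀ a, P a → ∃ b, sz b ≤ q.eval (sz a) ∧ R (a, b) = true ∧ Q (f (a, b)))
    (h' : ∀ a b, R (a, b) = true → Q (f (a, b)) → P a) : InNPP P := by
  obtain ⟨V, p, hV, hspec⟩ := hQ
  have hVP := poly_of_polyTime hV
  have hQ' : ∀ c : γ, Q c ↔ ∃ w : List Bool, w.length ≤ p.eval (bits c).length ∧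
      V (pairBits (bits c) w) = [true] := fun c => by rw [← hspec, bits_mem_lang]
  obtain ⟨r, hr⟩ := hf.sz_le
  -- the verifier
  let W : α × (β × List Bool) → Bool := fun x =>
    (R (x.1, x.2.1) && decide (x.2.2.length ≤ p.eval (bits (f (x.1, x.2.1))).length)) &&
      decide (V (pairBits (bits (f (x.1, x.2.1))) x.2.2) = [true])
  have hab : Poly (fun x : α × (β × List Bool) => (x.1, x.2.1)) :=
    Poly.pair (Poly.fst Poly.id) (Poly.fst (Poly.snd Poly.id))
  have hbits : Poly (fun x : α × (β × List Bool) => bits (f (x.1, x.2.1))) :=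
    poly_bits (hf.comp hab)
  have hW : Poly W := by
    refine Poly.and (Poly.and (hR.comp hab) ?_) ?_
    · exact Poly.decide_le (Poly.length (Poly.snd (Poly.snd Poly.id)))
        ((UPoly.eval (UPoly.length hbits) p).toPoly)
    · exact Poly.decide_eq (hVP.comp (poly_pairBits hbits (Poly.snd (Poly.snd Poly.id))))
        (Poly.const _)
  refine inNPP_of hW (q + (Polynomial.C 4 * p.comp (r.comp (Polynomial.X + q + 1)) + 1) + 1)
    fun a => ?_
  constructor
  · intro hPa
    obtain ⟨b, hb, hRb, hQb⟩ := h a hPa
    obtain ⟨w, hw, hVw⟩ := (hQ' _).1 hQb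
    refine ⟨(b, w), ?_, ?_⟩
    · rw [sz_pair]
      have h1 := sz_listBool_le w
      have h2 : w.length ≤ p.eval (r.eval (sz a + q.eval (sz a) + 1)) := by
        refine hw.trans (eval_mono p ?_)
        rw [bits_length]
        refine (hr (a, b)).trans (eval_mono r ?_)
        rw [sz_pair]
        omega
      simp only [Polynomial.eval_add, Polynomial.eval_mul, Polynomial.eval_C,
        Polynomial.eval_comp, Polynomial.eval_X, Polynomial.eval_one]
      omega
    · change ((R (a, b) && decide (w.length ≤ p.eval (bits (f (a, b))).length)) &&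
        decide (V (pairBits (bits (f (a, b))) w) = [true])) = true
      rw [hRb, decide_eq_true hw, decide_eq_true hVw]
      rfl
  · rintro ⟨⟨b, w⟩, hsz, hWw⟩
    have hWw' : ((R (a, b) && decide (w.length ≤ p.eval (bits (f (a, b))).length)) &&
        decide (V (pairBits (bits (f (a, b))) w) = [true])) = true := hWw
    simp only [Bool.and_eq_true, decide_eq_true_eq] at hWw'
    exact h' a b hWw'.1.1 ((hQ' _).2 ⟨w, hWw'.1.2, hWw'.2⟩)

/-- Every function on a finite type is polynomial-time computable. -/
theorem poly_finite {α β : Type} [TEnc α] [TEnc β] [DecidableEq α] [Fintype α]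
    (F : α → β) : Poly F := by
  rcases isEmpty_or_nonempty β with hβ | ⟨⟨d⟩⟩
  · exact ⟨Cmd.skip, 0, fun a => (IsEmpty.false (F a)).elim⟩
  · have key : ∀ L : List α, Poly (fun a => if a ∈ L then F a else d) := by
      intro L
      induction L with
      | nil => exact (Poly.const d).congr fun a => by simp
      | cons x L ih =>
        refine (Poly.ite (p := fun a => a = x) (Poly.decide_eq Poly.id (Poly.const x))
          (Poly.const (F x)) ih).congr fun a => ?_
        by_cases hax : a = x
        · subst hax; simp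
        · simp [hax]
    exact (key Finset.univ.toList).congr fun a => by simp

end Pool.Agent.NPC.Y548
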