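import Pool.Agent.Y548.SSP.NPTools
import Pool.Agent.H648R3.SSP.Red

/-!
# Subset sum: transfer of hardness to overgroups, and membership for finite extensions
-/

namespace Pool.Agent.NPC.Y548

open Pool.Agent.NPC.SSP648 Pool.Agent.H648R3.SSP

/-! ### Substitution of words -/

/-- Substitution of words for the letters. -/
def subW {m n : ℕ} (A : Fin m → List (Fin n × Bool)) (w : List (Fin m × Bool)) :
    List (Fin n × Bool) :=
  w.flatMap fun l => if l.2 then A l.1 else winv (A l.1)

/-- Substitution in instances. -/
def subI {m n : ℕ} (A : Fin m → List (Fin n × Bool))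
    (I : List (List (Fin m × Bool)) × List (Fin m × Bool)) :
    List (List (Fin n × Bool)) × List (Fin n × Bool) :=
  (I.1.map (subW A), subW A I.2)

theorem poly_subI {m n : ℕ} (A : Fin m → List (Fin n × Bool)) : Poly (subI A) := by
  have h1 : Poly (fun l : Fin m × Bool => if l.2 then A l.1 else winv (A l.1)) := poly_finite _
  have h2 : Poly (subW A) := Poly.flatMap (F := fun _ (l : Fin m × Bool) =>
    if l.2 then A l.1 else winv (A l.1)) Poly.id (h1.comp (Poly.snd Poly.id))
  exact Poly.pair (Poly.map (F := fun _ w => subW A w) (Poly.fst Poly.id)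
    (h2.comp (Poly.snd Poly.id))) (h2.comp (Poly.snd Poly.id))

section
variable {G H : Type*} [Group G] [Group H] {m n : ℕ}

theorem wval_cons (g : Fin n → G) (l : Fin n × Bool) (w : List (Fin n × Bool)) :
    wval g (l :: w) = lval g l * wval g w := by
  simp [wval]

theorem wval_subW {g : Fin n → G} {h : Fin m → H} {φ : H →* G}
    {A : Fin m → List (Fin n × Bool)} (hA : ∀ j, wval g (A j) = φ (h j))
    (w : List (Fin m × Bool)) : wval g (subW A w) = φ (wval h w) := by
  induction w with
  | nil => simp [subW]
  | cons l w ih =>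
    have e : subW A (l :: w) = (if l.2 then A l.1 else winv (A l.1)) ++ subW A w := by
      simp [subW]
    rw [e, wval_append, ih, wval_cons, map_mul]
    congr 1
    obtain ⟨j, b⟩ := l
    cases b
    · simp [lval, wval_winv, hA]
    · simp [lval, hA]

theorem wval_selW_map {g : Fin n → G} {h : Fin m → H} {φ : H →* G}
    {A : Fin m → List (Fin n × Bool)} (hA : ∀ j, wval g (A j) = φ (h j))
    (b : List Bool) (ws : List (List (Fin m × Bool))) :
    wval g (selW b (ws.map (subW A))) = φ (wval h (selW b ws)) := by
  induction ws generalizing b with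
  | nil => simp [selW]
  | cons w ws ih =>
    cases b with
    | nil => simp [selW]
    | cons c b =>
      have e1 : selW (c :: b) ((w :: ws).map (subW A)) =
          (if c then subW A w else []) ++ selW b (ws.map (subW A)) := by simp [selW]
      have e2 : selW (c :: b) (w :: ws) = (if c then w else []) ++ selW b ws := by simp [selW]
      rw [e1, e2, wval_append, wval_append, map_mul, ih]
      congr 1
      cases c
      · simp
      · simp [wval_subW hA]

theorem subI_iff {g : Fin n → G} {h : Fin m → H} {φ : H →* G} (hφ : Function.Injective φ)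
    {A : Fin m → List (Fin n × Bool)} (hA : ∀ j, wval g (A j) = φ (h j))
    (I : List (List (Fin m × Bool)) × List (Fin m × Bool)) :
    SubsetSum h I ↔ SubsetSum g (subI A I) := by
  rw [subsetSum_iff, subsetSum_iff]
  have key : ∀ b, wval g (selW b (subI A I).1 ++ winv (subI A I).2) =
      φ (wval h (selW b I.1 ++ winv I.2)) := by
    intro b
    rw [wval_append, wval_winv, wval_append, wval_winv, map_mul, map_inv]
    change wval g (selW b (I.1.map (subW A))) * (wval g (subW A I.2))⁻¹ = _
    rw [wval_selW_map hA, wval_subW hA]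
  have hlen : (subI A I).1.length = I.1.length := by simp [subI]
  constructor
  · rintro ⟨b, hb, h1⟩
    exact ⟨b, by rw [hlen, hb], by rw [key, h1, map_one]⟩
  · rintro ⟨b, hb, h1⟩
    refine ⟨b, by rw [← hlen, hb], hφ ?_⟩
    rw [← key, h1, map_one]

theorem exists_word_closure (g : Fin n → G) {x : G} (hx : x ∈ Subgroup.closure (Set.range g)) :
    ∃ A : List (Fin n × Bool), wval g A = x := by
  let K : Subgroup G :=
    { carrier := {x | ∃ A : List (Fin n × Bool), wval g A = x}
      mul_mem' := by
        rintro _ _ ⟨A, rfl⟩ ⟨B, rfl⟩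
        exact ⟨A ++ B, wval_append g A B⟩
      one_mem' := ⟨[], rfl⟩
      inv_mem' := by
        rintro _ ⟨A, rfl⟩
        exact ⟨winv A, wval_winv g A⟩ }
  have hK : Subgroup.closure (Set.range g) ≤ K := by
    rw [Subgroup.closure_le]
    rintro _ ⟨j, rfl⟩
    exact ⟨[(j, true)], by simp [wval, lval]⟩
  exact hK hx

/-- Hardness passes from a group with generators to a group it embeds into. -/
theorem hard_of_hom {h : Fin m → H} (hh : NPHardP (SubsetSum h)) (g : Fin n → G) (φ : H →* G)
    (hφ : Function.Injective φ) (hr : ∀ j, φ (h j) ∈ Subgroup.closure (Set.range g)) :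
    NPHardP (SubsetSum g) := by
  choose A hA using fun j => exists_word_closure g (hr j)
  exact hh.of_poly (poly_subI A) (subI_iff hφ hA)

theorem exists_gens [Group.FG H] :
    ∃ (m : ℕ) (h : Fin m → H), Subgroup.closure (Set.range h) = ⊤ := by
  obtain ⟨S, hS⟩ := Group.fg_def.1 (inferInstance : Group.FG H)
  refine ⟨S.card, fun i => (S.equivFin.symm i : H), ?_⟩
  rw [← hS]
  congr 1
  ext x
  constructor
  · rintro ⟨i, rfl⟩
    exact (S.equivFin.symm i).2
  · intro hx
    exact ⟨S.equivFin ⟨x, hx⟩, by simp⟩

/-- Every group containing a finitely generated metabelian group that is not virtually nilpotent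
has `NP`-hard subset sum. -/
theorem hard_metab [Metab H] [Group.FG H]
    (hnot : ¬ ∃ K : Subgroup H, K.FiniteIndex ∧ Group.IsNilpotent K)
    (g : Fin n → G) (φ : H →* G) (hφ : Function.Injective φ)
    (hr : ∀ x, φ x ∈ Subgroup.closure (Set.range g)) : NPHardP (SubsetSum g) := by
  obtain ⟨m, h, hh⟩ := exists_gens (H := H)
  exact hard_of_hom (npHardP_subsetSum hh hnot) g φ hφ fun j => hr _

/-- The same for virtually metabelian groups. -/
theorem hard_virt [Group.FG H]
    (hv : ∃ M : Subgroup H, M.FiniteIndex ∧ ∀ a ∈ commutator M, ∀ b ∈ commutator M, a * b = b * a)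
    (hnot : ¬ ∃ K : Subgroup H, K.FiniteIndex ∧ Group.IsNilpotent K)
    (g : Fin n → G) (φ : H →* G) (hφ : Function.Injective φ)
    (hr : ∀ x, φ x ∈ Subgroup.closure (Set.range g)) : NPHardP (SubsetSum g) := by
  obtain ⟨M, hM, hc⟩ := hv
  have : Metab M := ⟨hc⟩
  have hfg : Group.FG M := Subgroup.fg_of_index_ne_zero M
  refine hard_metab (H := M) ?_ g (φ.comp M.subtype) (hφ.comp M.subtype_injective)
    (fun x => hr _)
  rintro ⟨K, hK, hnil⟩
  refine hnot ⟨K.map M.subtype, ?_, ?_⟩
  · refine ⟨?_⟩
    rw [Subgroup.index_map_subtype]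
    exact mul_ne_zero hK.index_ne_zero hM.index_ne_zero
  · have e : K ≃* K.map M.subtype := K.equivMapOfInjective M.subtype M.subtype_injective
    exact Group.nilpotent_of_mulEquiv e

end

end Pool.Agent.NPC.Y548
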