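import Mathlib

/-!
# Locally virtually unipotent actions of finitely generated nilpotent groups
-/

namespace Pool.Agent.Y548.Unip

section fil

variable {Q : Type*} [Group Q] {V : Type*} [AddCommGroup V]

/-- Stability under the action. -/
def Stab (ρ : Q →* Module.End ℤ V) (W : AddSubgroup V) : Prop := ∀ q, ∀ w ∈ W, ρ q w ∈ W

/-- `W` is finitely generated over `U`. -/
def FGm (ρ : Q →* Module.End ℤ V) (W U : AddSubgroup V) : Prop :=
  ∃ S : Set V, S.Finite ∧ S ⊆ W ∧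
    ∀ X : AddSubgroup V, Stab ρ X → U ≤ X → S ⊆ X → W ≤ X

/-- The endomorphisms preserving `U`. -/
def stabRing (U : AddSubgroup V) : Subring (Module.End ℤ V) where
  carrier := {f | ∀ u ∈ U, f u ∈ U}
  mul_mem' := fun {f g} hf hg u hu => hf _ (hg u hu)
  one_mem' := fun u hu => hu
  add_mem' := fun {f g} hf hg u hu => U.add_mem (hf u hu) (hg u hu)
  zero_mem' := fun u _ => U.zero_mem
  neg_mem' := fun {f} hf u hu => U.neg_mem (hf u hu)

theorem mem_stabRing {U : AddSubgroup V} {f : Module.End ℤ V} :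
    f ∈ stabRing U ↔ ∀ u ∈ U, f u ∈ U := Iff.rfl

theorem rho_mem {ρ : Q →* Module.End ℤ V} {U : AddSubgroup V} (h : Stab ρ U) (q : Q) :
    ρ q ∈ stabRing U := h q

/-- The filtration of vectors killed modulo `U` by products of `r` elements. -/
def NilF (ρ : Q →* Module.End ℤ V) (Q0 : Subgroup Q) (U : AddSubgroup V) : ℕ → AddSubgroup V
  | 0 => U
  | r + 1 =>
    { carrier := {v | ∀ x ∈ Q0, ρ x v - v ∈ NilF ρ Q0 U r}
      add_mem' := by
        intro a b ha hb x hx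
        have : ρ x (a + b) - (a + b) = (ρ x a - a) + (ρ x b - b) := by rw [map_add]; abel
        rw [this]
        exact AddSubgroup.add_mem _ (ha x hx) (hb x hx)
      zero_mem' := by
        intro x _
        rw [map_zero, sub_zero]
        exact AddSubgroup.zero_mem _
      neg_mem' := by
        intro a ha x hx
        have : ρ x (-a) - -a = -(ρ x a - a) := by rw [map_neg]; abel
        rw [this]
        exact AddSubgroup.neg_mem _ (ha x hx) }

theorem mem_NilF_succ {ρ : Q →* Module.End ℤ V} {Q0 : Subgroup Q} {U : AddSubgroup V} {r : ℕ}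
    {v : V} : v ∈ NilF ρ Q0 U (r + 1) ↔ ∀ x ∈ Q0, ρ x v - v ∈ NilF ρ Q0 U r := Iff.rfl

theorem NilF_mono {ρ : Q →* Module.End ℤ V} {Q0 Q1 : Subgroup Q} (h : Q1 ≤ Q0)
    {U U' : AddSubgroup V} (hU : U ≤ U') (r : ℕ) : NilF ρ Q0 U r ≤ NilF ρ Q1 U' r := by
  induction r with
  | zero => exact hU
  | succ r ih => exact fun v hv x hx => ih (hv x (h hx))

theorem NilF_NilF (ρ : Q →* Module.End ℤ V) (Q0 : Subgroup Q) (U : AddSubgroup V) (a b : ℕ) :
    NilF ρ Q0 (NilF ρ Q0 U a) b = NilF ρ Q0 U (a + b) := by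
  induction b with
  | zero => rfl
  | succ b ih =>
    ext v
    rw [mem_NilF_succ, ← Nat.add_assoc, mem_NilF_succ, ih]

/-- The conclusion. -/
def Good (ρ : Q →* Module.End ℤ V) (W U : AddSubgroup V) : Prop :=
  ∃ Q0 : Subgroup Q, Q0.FiniteIndex ∧ ∃ r, W ≤ NilF ρ Q0 U r

theorem Good.trans {ρ : Q →* Module.End ℤ V} {W X U : AddSubgroup V} (h : Good ρ W X)
    (h' : Good ρ X U) : Good ρ W U := by
  obtain ⟨Q0, hQ0, r, hr⟩ := h
  obtain ⟨Q1, hQ1, s, hs⟩ := h'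
  refine ⟨Q0 ⊓ Q1, inferInstance, s + r, ?_⟩
  rw [← NilF_NilF]
  exact hr.trans (NilF_mono inf_le_left (hs.trans (NilF_mono inf_le_right le_rfl s)) r)

theorem Good.refl {ρ : Q →* Module.End ℤ V} {W U : AddSubgroup V} (h : W ≤ U) : Good ρ W U :=
  ⟨⊤, inferInstance, 0, h⟩

/-- The operator `z ^ m - 1`. -/
def D (ρ : Q →* Module.End ℤ V) (z : Q) (m : ℕ) : Module.End ℤ V := (ρ z) ^ m - 1

theorem D_mem {ρ : Q →* Module.End ℤ V} {U : AddSubgroup V} (h : Stab ρ U) (z : Q) (m k : ℕ) :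
    (D ρ z m) ^ k ∈ stabRing U :=
  pow_mem (sub_mem (pow_mem (rho_mem h z) m) (one_mem _)) k

theorem comm_pow {ρ : Q →* Module.End ℤ V} {W U : AddSubgroup V} (hW : Stab ρ W)
    (hU : Stab ρ U) {z : Q} (hc : ∀ q, ∀ w ∈ W, ρ z (ρ q w) - ρ q (ρ z w) ∈ U) (m : ℕ) :
    ∀ q, ∀ w ∈ W, ((ρ z) ^ m) (ρ q w) - ρ q (((ρ z) ^ m) w) ∈ U := by
  induction m with
  | zero => intro q w _; simp
  | succ m ih =>
    intro q w hw
    have h1 := ih q (ρ z w) (hW z w hw)
    have h2 := hc q w hw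
    have h3 : ((ρ z) ^ m) (ρ z (ρ q w) - ρ q (ρ z w)) ∈ U :=
      (pow_mem (rho_mem hU z) m : (ρ z) ^ m ∈ stabRing U) _ h2
    have h4 : ((ρ z) ^ (m + 1)) (ρ q w) - ρ q (((ρ z) ^ (m + 1)) w) =
        ((ρ z) ^ m) (ρ z (ρ q w) - ρ q (ρ z w)) +
          (((ρ z) ^ m) (ρ q (ρ z w)) - ρ q (((ρ z) ^ m) (ρ z w))) := by
      rw [pow_succ, Module.End.mul_apply, Module.End.mul_apply, map_sub]
      abel
    rw [h4]
    exact U.add_mem h3 h1

theorem comm_D {ρ : Q →* Module.End ℤ V} {W U : AddSubgroup V} (hW : Stab ρ W)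
    (hU : Stab ρ U) {z : Q} (hc : ∀ q, ∀ w ∈ W, ρ z (ρ q w) - ρ q (ρ z w) ∈ U) (m : ℕ) :
    ∀ q, ∀ w ∈ W, D ρ z m (ρ q w) - ρ q (D ρ z m w) ∈ U := by
  intro q w hw
  have h1 := comm_pow hW hU hc m q w hw
  have h2 : D ρ z m (ρ q w) - ρ q (D ρ z m w) =
      ((ρ z) ^ m) (ρ q w) - ρ q (((ρ z) ^ m) w) := by
    simp only [D, LinearMap.sub_apply, Module.End.one_apply, map_sub]
    abel
  rw [h2]
  exact h1

theorem comm_Dk {ρ : Q →* Module.End ℤ V} {W U : AddSubgroup V} (hW : Stab ρ W)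
    (hU : Stab ρ U) {z : Q} (hc : ∀ q, ∀ w ∈ W, ρ z (ρ q w) - ρ q (ρ z w) ∈ U) (m k : ℕ) :
    ∀ q, ∀ w ∈ W, ((D ρ z m) ^ k) (ρ q w) - ρ q (((D ρ z m) ^ k) w) ∈ U := by
  induction k with
  | zero => intro q w _; simp
  | succ k ih =>
    intro q w hw
    have hDw : D ρ z m w ∈ W := by
      have := D_mem hW z m 1
      rw [pow_one] at this
      exact this w hw
    have h1 := ih q (D ρ z m w) hDw
    have h2 := comm_D hW hU hc m q w hw
    have h3 : ((D ρ z m) ^ k) (D ρ z m (ρ q w) - ρ q (D ρ z m w)) ∈ U := D_mem hU z m k _ h2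
    have h4 : ((D ρ z m) ^ (k + 1)) (ρ q w) - ρ q (((D ρ z m) ^ (k + 1)) w) =
        ((D ρ z m) ^ k) (D ρ z m (ρ q w) - ρ q (D ρ z m w)) +
          (((D ρ z m) ^ k) (ρ q (D ρ z m w)) - ρ q (((D ρ z m) ^ k) (D ρ z m w))) := by
      rw [pow_succ, Module.End.mul_apply, Module.End.mul_apply, map_sub]
      abel
    rw [h4]
    exact U.add_mem h3 h1

theorem good_central (ρ : Q →* Module.End ℤ V) (z : Q) (m : ℕ) {U : AddSubgroup V}
    (hU : Stab ρ U) : ∀ (k : ℕ) (W : AddSubgroup V), Stab ρ W → U ≤ W → FGm ρ W U →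
    (∀ q, ∀ w ∈ W, ρ z (ρ q w) - ρ q (ρ z w) ∈ U) → (∀ w ∈ W, ((D ρ z m) ^ k) w ∈ U) →
    (∀ W' U' : AddSubgroup V, Stab ρ W' → Stab ρ U' → U ≤ U' → U' ≤ W' → W' ≤ W →
      FGm ρ W' U' → (∀ w ∈ W', D ρ z m w ∈ U') → Good ρ W' U') → Good ρ W U := by
  intro k
  induction k with
  | zero =>
    intro W _ _ _ _ hk _
    exact Good.refl fun w hw => by simpa using hk w hw
  | succ k ih =>
    intro W hW hUW hfg hc hk hG
    have hDW : ∀ w ∈ W, D ρ z m w ∈ W := by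
      intro w hw
      have := D_mem hW z m 1
      rw [pow_one] at this
      exact this w hw
    have hDU : ∀ w ∈ U, D ρ z m w ∈ U := by
      intro w hw
      have := D_mem hU z m 1
      rw [pow_one] at this
      exact this w hw
    set X : AddSubgroup V := U ⊔ W.map (D ρ z m).toAddMonoidHom with hX
    have hmX : ∀ x, x ∈ X ↔ ∃ u ∈ U, ∃ w ∈ W, u + D ρ z m w = x := by
      intro x
      rw [hX, AddSubgroup.mem_sup]
      constructor
      · rintro ⟨u, hu, y, ⟨w, hw, rfl⟩, rfl⟩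
        exact ⟨u, hu, w, hw, rfl⟩
      · rintro ⟨u, hu, w, hw, rfl⟩
        exact ⟨u, hu, _, ⟨w, hw, rfl⟩, rfl⟩
    have hXW : X ≤ W := by
      intro x hx
      obtain ⟨u, hu, w, hw, rfl⟩ := (hmX x).1 hx
      exact W.add_mem (hUW hu) (hDW w hw)
    have hUX : U ≤ X := le_sup_left
    have hXs : Stab ρ X := by
      intro q x hx
      obtain ⟨u, hu, w, hw, rfl⟩ := (hmX x).1 hx
      have h1 := comm_D hW hU hc m q w hw
      refine (hmX _).2 ⟨ρ q u - (D ρ z m (ρ q w) - ρ q (D ρ z m w)),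
        U.sub_mem (hU q u hu) h1, ρ q w, hW q w hw, ?_⟩
      rw [map_add]; abel
    have h1 : Good ρ W X := by
      refine hG W X hW hXs hUX hXW le_rfl ?_ fun w hw => (hmX _).2 ⟨0, U.zero_mem, w, hw, by simp⟩
      obtain ⟨S, hS, hSW, hSg⟩ := hfg
      exact ⟨S, hS, hSW, fun Y hY hXY hSY => hSg Y hY (hUX.trans hXY) hSY⟩
    have h2 : Good ρ X U := by
      refine ih X hXs hUX ?_ (fun q w hw => hc q w (hXW hw)) ?_ ?_
      · obtain ⟨S, hS, hSW, hSg⟩ := hfg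
        refine ⟨(D ρ z m) '' S, hS.image _, ?_, ?_⟩
        · rintro _ ⟨s, hs, rfl⟩
          exact (hmX _).2 ⟨0, U.zero_mem, s, hSW hs, by simp⟩
        · intro Y hY hUY hSY
          have hg := hSg (Y.comap (D ρ z m).toAddMonoidHom ⊓ W) (by
            rintro q w ⟨hw1, hw2⟩
            refine ⟨?_, hW q w hw2⟩
            have e1 := comm_D hW hU hc m q w hw2
            have e2 : D ρ z m (ρ q w) = (D ρ z m (ρ q w) - ρ q (D ρ z m w)) +
              ρ q (D ρ z m w) := by abel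
            change D ρ z m (ρ q w) ∈ Y
            rw [e2]
            exact Y.add_mem (hUY e1) (hY q _ hw1)) (by
            intro u hu
            exact ⟨hUY (hDU u hu), hUW hu⟩) (by
            intro s hs
            exact ⟨hSY ⟨s, hs, rfl⟩, hSW hs⟩)
          intro x hx
          obtain ⟨u, hu, w, hw, rfl⟩ := (hmX x).1 hx
          exact Y.add_mem (hUY hu) (hg hw).1
      · intro x hx
        obtain ⟨u, hu, w, hw, rfl⟩ := (hmX x).1 hx
        rw [map_add]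
        refine U.add_mem (D_mem hU z m k u hu) ?_
        have := hk w hw
        rwa [pow_succ, Module.End.mul_apply] at this
      · intro W' U' a b c d e f g
        exact hG W' U' a b c d (e.trans hXW) f g
    exact h1.trans h2

theorem good_list (ρ : Q →* Module.End ℤ V) (m : ℕ) (T : List Q) :
    ∀ (W U : AddSubgroup V), Stab ρ W → Stab ρ U → U ≤ W → FGm ρ W U →
    (∀ z ∈ T, ∀ q, ∀ w ∈ W, ρ z (ρ q w) - ρ q (ρ z w) ∈ U) →
    (∀ z ∈ T, ∃ k, ∀ w ∈ W, ((D ρ z m) ^ k) w ∈ U) →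
    (∀ W' U' : AddSubgroup V, Stab ρ W' → Stab ρ U' → U ≤ U' → U' ≤ W' → W' ≤ W →
      FGm ρ W' U' → (∀ z ∈ T, ∀ w ∈ W', D ρ z m w ∈ U') → Good ρ W' U') → Good ρ W U := by
  induction T with
  | nil =>
    intro W U hW hU hUW hfg _ _ hG
    exact hG W U hW hU le_rfl hUW le_rfl hfg (by simp)
  | cons z T ih =>
    intro W U hW hU hUW hfg hc hk hG
    obtain ⟨k, hk0⟩ := hk z List.mem_cons_self
    refine good_central ρ z m hU k W hW hUW hfg (hc z List.mem_cons_self) hk0 ?_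
    intro W' U' hW' hU' h1 h2 h3 hfg' hD
    refine ih W' U' hW' hU' h2 hfg' ?_ ?_ ?_
    · intro y hy q w hw
      exact h1 (hc y (List.mem_cons_of_mem _ hy) q w (h3 hw))
    · intro y hy
      obtain ⟨j, hj⟩ := hk y (List.mem_cons_of_mem _ hy)
      exact ⟨j, fun w hw => h1 (hj w (h3 hw))⟩
    · intro W'' U'' a b c d e f g
      refine hG W'' U'' a b (h1.trans c) d (e.trans h3) f ?_
      intro y hy w hw
      rcases List.mem_cons.1 hy with rfl | hy
      · exact c (hD w (e hw))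
      · exact g y hy w hw

/-- Local virtual unipotency. -/
def LVU (ρ : Q →* Module.End ℤ V) (W U : AddSubgroup V) : Prop :=
  ∀ q, ∀ w ∈ W, ∃ m, 1 ≤ m ∧ ∃ k, ((D ρ q m) ^ k) w ∈ U

theorem D_dvd {ρ : Q →* Module.End ℤ V} {U : AddSubgroup V} (hU : Stab ρ U) {z : Q}
    {m k m' k' : ℕ} (hm : m ∣ m') (hk : k ≤ k') {s : V} (h : ((D ρ z m) ^ k) s ∈ U) :
    ((D ρ z m') ^ k') s ∈ U := by
  obtain ⟨n, rfl⟩ := hm
  obtain ⟨j, rfl⟩ := Nat.exists_eq_add_of_le hk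
  have h1 : D ρ z (m * n) = (∑ i ∈ Finset.range n, ((ρ z) ^ m) ^ i) * D ρ z m := by
    rw [D, D, geom_sum_mul, pow_mul]
  have hcom : Commute (∑ i ∈ Finset.range n, ((ρ z) ^ m) ^ i) (D ρ z m) := by
    refine Commute.sub_right (Commute.sum_left _ _ _ fun i _ => ?_) (Commute.one_right _)
    exact (Commute.refl _).pow_left i
  have h2 : (D ρ z (m * n)) ^ (k + j) =
      ((D ρ z (m * n)) ^ j * (∑ i ∈ Finset.range n, ((ρ z) ^ m) ^ i) ^ k) * (D ρ z m) ^ k := by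
    rw [add_comm k j, pow_add, mul_assoc]
    congr 1
    rw [h1, hcom.mul_pow]
  rw [h2, Module.End.mul_apply]
  have h3 : (D ρ z (m * n)) ^ j * (∑ i ∈ Finset.range n, ((ρ z) ^ m) ^ i) ^ k ∈ stabRing U :=
    mul_mem (D_mem hU z _ j) (pow_mem (sum_mem fun i _ => pow_mem (pow_mem (rho_mem hU z) m) i) k)
  exact h3 _ h

theorem uniform {ρ : Q →* Module.End ℤ V} {W U : AddSubgroup V} (hW : Stab ρ W)
    (hU : Stab ρ U) (hUW : U ≤ W) (hfg : FGm ρ W U) (hl : LVU ρ W U) (T : Set Q)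
    (hT : T.Finite) (hc : ∀ z ∈ T, ∀ q, ∀ w ∈ W, ρ z (ρ q w) - ρ q (ρ z w) ∈ U) :
    ∃ m, 1 ≤ m ∧ ∀ z ∈ T, ∃ k, ∀ w ∈ W, ((D ρ z m) ^ k) w ∈ U := by
  classical
  obtain ⟨S, hS, hSW, hSg⟩ := hfg
  choose! m hm1 k hk using hl
  refine ⟨∏ z ∈ hT.toFinset, ∏ s ∈ hS.toFinset, m z s, ?_, ?_⟩
  · refine Nat.succ_le_of_lt (Finset.prod_pos fun z _ => Finset.prod_pos fun s hs => ?_)
    exact hm1 z s (hSW (hS.mem_toFinset.1 hs))
  · intro z hz
    refine ⟨∑ s ∈ hS.toFinset, k z s, ?_⟩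
    set M := ∏ z ∈ hT.toFinset, ∏ s ∈ hS.toFinset, m z s with hM
    set K := ∑ s ∈ hS.toFinset, k z s with hK
    have hg := hSg (U.comap ((D ρ z M) ^ K).toAddMonoidHom ⊓ W) (by
      rintro q w ⟨hw1, hw2⟩
      refine ⟨?_, hW q w hw2⟩
      have e1 := comm_Dk hW hU (hc z hz) M K q w hw2
      have e2 : ((D ρ z M) ^ K) (ρ q w) = (((D ρ z M) ^ K) (ρ q w) - ρ q (((D ρ z M) ^ K) w)) +
        ρ q (((D ρ z M) ^ K) w) := by abel
      change ((D ρ z M) ^ K) (ρ q w) ∈ U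
      rw [e2]
      exact U.add_mem e1 (hU q _ hw1)) (fun u hu => ⟨D_mem hU z M K u hu, hUW hu⟩) (by
      intro s hs
      refine ⟨?_, hSW hs⟩
      have hs' := hS.mem_toFinset.2 hs
      refine D_dvd hU (m := m z s) (k := k z s) ?_ ?_ (hk z s (hSW hs))
      · exact (Finset.dvd_prod_of_mem (fun s => m z s) hs').trans
          (Finset.dvd_prod_of_mem (fun z => ∏ s ∈ hS.toFinset, m z s) (hT.mem_toFinset.2 hz))
      · exact Finset.single_le_sum (f := fun s => k z s) (fun _ _ => Nat.zero_le _) hs')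
    exact fun w hw => (hg hw).1

end fil

end Pool.Agent.Y548.Unip
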