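import Pool.Agent.Y548.SSP.Unip

/-!
# Locally virtually unipotent actions of finitely generated nilpotent groups, main induction
-/

namespace Pool.Agent.Y548.Unip

universe u v

open scoped commutatorElement

section grp

variable {Q : Type u} [Group Q]

/-- The lower central series of a group. -/
abbrev lcs (Q : Type u) [Group Q] (c : ℕ) : Subgroup Q :=
  Subgroup.lowerCentralSeries (⊤ : Subgroup Q) c

theorem mk_comm_iff {N : Subgroup Q} [N.Normal] (x y : Q) :
    (QuotientGroup.mk' N x) * (QuotientGroup.mk' N y) =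
      (QuotientGroup.mk' N y) * (QuotientGroup.mk' N x) ↔ ⁅x, y⁆ ∈ N := by
  rw [← commutatorElement_eq_one_iff_mul_comm, ← map_commutatorElement]
  exact QuotientGroup.eq_one_iff _

theorem fin_lcs [Group.FG Q] (c : ℕ) :
    ∃ T : Set Q, T.Finite ∧ Subgroup.normalClosure T = lcs Q c := by
  obtain ⟨X, hX⟩ := Group.fg_def.1 (inferInstance : Group.FG Q)
  induction c with
  | zero =>
    refine ⟨X, X.finite_toSet, ?_⟩
    change _ = (⊤ : Subgroup Q)
    rw [eq_top_iff, ← hX]
    exact Subgroup.closure_le_normalClosure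
  | succ c ih =>
    obtain ⟨T, hT, hTc⟩ := ih
    refine ⟨(fun p : Q × Q => ⁅p.1, p.2⁆) '' (T ×ˢ (X : Set Q)),
      (hT.prod X.finite_toSet).image _, le_antisymm ?_ ?_⟩
    · refine Subgroup.normalClosure_le_normal ?_
      rintro _ ⟨⟨t, x⟩, ⟨ht, _⟩, rfl⟩
      exact Subgroup.commutator_mem_commutator (hTc.le (Subgroup.subset_normalClosure ht))
        (Subgroup.mem_top _)
    · set N := Subgroup.normalClosure ((fun p : Q × Q => ⁅p.1, p.2⁆) '' (T ×ˢ (X : Set Q)))
      have h1 : T ⊆ (Subgroup.center (Q ⧸ N)).comap (QuotientGroup.mk' N) := by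
        intro t ht
        have h2 : Subgroup.closure (X : Set Q) ≤
            (Subgroup.centralizer {QuotientGroup.mk' N t}).comap (QuotientGroup.mk' N) := by
          rw [Subgroup.closure_le]
          intro x hx
          change QuotientGroup.mk' N x ∈ Subgroup.centralizer {QuotientGroup.mk' N t}
          rw [Subgroup.mem_centralizer_iff]
          rintro _ rfl
          exact (mk_comm_iff t x).2 (Subgroup.subset_normalClosure ⟨(t, x), ⟨ht, hx⟩, rfl⟩)
        rw [hX] at h2
        change QuotientGroup.mk' N t ∈ Subgroup.center (Q ⧸ N)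
        rw [Subgroup.mem_center_iff]
        intro y
        obtain ⟨y, rfl⟩ := QuotientGroup.mk'_surjective N y
        have h3 := h2 (Subgroup.mem_top y)
        rw [Subgroup.mem_comap, Subgroup.mem_centralizer_iff] at h3
        exact (h3 _ rfl).symm
      have h2 := Subgroup.normalClosure_le_normal h1
      rw [hTc] at h2
      change ⁅lcs Q c, (⊤ : Subgroup Q)⁆ ≤ N
      rw [Subgroup.commutator_le]
      intro a ha b _
      have h3 := h2 ha
      rw [Subgroup.mem_comap, Subgroup.mem_center_iff] at h3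
      exact (mk_comm_iff a b).1 (h3 _).symm

/-- The elements that are `m`-th powers modulo the commutator subgroup. -/
def Qm (Q : Type u) [Group Q] (m : ℕ) : Subgroup Q :=
  ((powMonoidHom m : Abelianization Q →* Abelianization Q).range).comap Abelianization.of

theorem of_surj : Function.Surjective (Abelianization.of : Q →* Abelianization Q) :=
  QuotientGroup.mk_surjective

theorem mem_Qm {m : ℕ} {y : Q} (hy : y ∈ Qm Q m) :
    ∃ x : Q, Abelianization.of (x ^ m) = Abelianization.of y := by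
  obtain ⟨x, hx⟩ := hy
  obtain ⟨x, rfl⟩ := of_surj x
  exact ⟨x, by rw [map_pow]; exact hx⟩

theorem Qm_finiteIndex [Group.FG Q] {m : ℕ} (hm : 1 ≤ m) : (Qm Q m).FiniteIndex := by
  have hF : Group.FG (Abelianization Q) := QuotientGroup.fg (commutator Q)
  set P : Subgroup (Abelianization Q) := (powMonoidHom m).range with hP
  have h1 : Finite (Abelianization Q ⧸ P) := by
    have : Group.FG (Abelianization Q ⧸ P) := QuotientGroup.fg P
    refine CommGroup.finite_of_fg_isMulTorsion _ ?_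
    intro x
    obtain ⟨x, rfl⟩ := QuotientGroup.mk_surjective x
    rw [isOfFinOrder_iff_pow_eq_one]
    refine ⟨m, hm, ?_⟩
    rw [← QuotientGroup.mk_pow, QuotientGroup.eq_one_iff]
    exact ⟨x, rfl⟩
  refine ⟨?_⟩
  rw [Qm, Subgroup.index_comap_of_surjective _ of_surj]
  exact Subgroup.index_ne_zero_of_finite

theorem lcs_mono {S : Subgroup Q} (c : ℕ) : S.lowerCentralSeries c ≤ lcs Q c := by
  induction c with
  | zero => exact le_top
  | succ c ih => exact Subgroup.commutator_mono ih le_top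

theorem pow_mem_lcs {K : Subgroup Q} [K.Normal] {c m : ℕ} (h : lcs Q (c + 1) ≤ K) {T : Set Q}
    (hT : Subgroup.normalClosure T = lcs Q c) (hTm : ∀ z ∈ T, z ^ m ∈ K) :
    ∀ z ∈ lcs Q c, z ^ m ∈ K := by
  let π := QuotientGroup.mk' K
  let N : Subgroup Q :=
    { carrier := {z | π z ∈ Subgroup.center (Q ⧸ K) ∧ (π z) ^ m = 1}
      mul_mem' := by
        rintro a b ⟨ha, ha'⟩ ⟨hb, hb'⟩
        refine ⟨by rw [map_mul]; exact Subgroup.mul_mem _ ha hb, ?_⟩
        have : Commute (π a) (π b) := ((Subgroup.mem_center_iff.1 ha) _).symm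
        rw [map_mul, this.mul_pow, ha', hb', one_mul]
      one_mem' := ⟨by rw [map_one]; exact Subgroup.one_mem _, by rw [map_one, one_pow]⟩
      inv_mem' := by
        rintro a ⟨ha, ha'⟩
        exact ⟨by rw [map_inv]; exact Subgroup.inv_mem _ ha, by rw [map_inv, inv_pow, ha', inv_one]⟩ }
  have hN : N.Normal := by
    refine ⟨fun n hn g => ?_⟩
    obtain ⟨h1, h2⟩ := hn
    have h3 : π (g * n * g⁻¹) = π n := by
      rw [map_mul, map_mul, (Subgroup.mem_center_iff.1 h1) (π g), map_inv, mul_inv_cancel_right]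
    exact ⟨by rw [h3]; exact h1, by rw [h3]; exact h2⟩
  have hTN : T ⊆ N := by
    intro z hz
    have hz' : z ∈ lcs Q c := by rw [← hT]; exact Subgroup.subset_normalClosure hz
    refine ⟨?_, ?_⟩
    · rw [Subgroup.mem_center_iff]
      intro y
      obtain ⟨y, rfl⟩ := QuotientGroup.mk'_surjective K y
      exact ((mk_comm_iff z y).2 (h (Subgroup.commutator_mem_commutator hz'
        (Subgroup.mem_top _)))).symm
    · rw [← map_pow]
      exact (QuotientGroup.eq_one_iff _).2 (hTm z hz)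
  have h1 := Subgroup.normalClosure_le_normal hTN
  rw [hT] at h1
  intro z hz
  have h2 := (h1 hz).2
  rw [← map_pow] at h2
  exact (QuotientGroup.eq_one_iff _).1 h2

theorem lcs_Qm {K : Subgroup Q} [K.Normal] {c m : ℕ} (h : lcs Q (c + 1) ≤ K)
    (hm : ∀ z ∈ lcs Q c, z ^ m ∈ K) : (Qm Q m).lowerCentralSeries c ≤ K := by
  cases c with
  | zero =>
    intro y hy
    obtain ⟨x, hx⟩ := mem_Qm hy
    have h1 : x ^ m ∈ K := hm x (Subgroup.mem_top _)
    have h2 : (x ^ m)⁻¹ * y ∈ commutator Q := by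
      rw [← QuotientGroup.eq]
      exact hx
    rw [← Subgroup.top_lowerCentralSeries_one] at h2
    have h3 := K.mul_mem h1 (h h2)
    rwa [mul_inv_cancel_left] at h3
  | succ c =>
    change ⁅(Qm Q m).lowerCentralSeries c, Qm Q m⁆ ≤ K
    rw [Subgroup.commutator_le]
    intro x hx y hy
    have hx' : x ∈ lcs Q c := lcs_mono c hx
    let π := QuotientGroup.mk' K
    have hxy : ∀ q, ⁅x, q⁆ ∈ lcs Q (c + 1) := fun q =>
      Subgroup.commutator_mem_commutator hx' (Subgroup.mem_top _)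
    have hcen : ∀ q, π ⁅x, q⁆ ∈ Subgroup.center (Q ⧸ K) := by
      intro q
      rw [Subgroup.mem_center_iff]
      intro y
      obtain ⟨y, rfl⟩ := QuotientGroup.mk'_surjective K y
      exact ((mk_comm_iff _ y).2 (h (Subgroup.commutator_mem_commutator (hxy q)
        (Subgroup.mem_top _)))).symm
    let _ : CommGroup (Subgroup.center (Q ⧸ K)) :=
      { (inferInstance : Group (Subgroup.center (Q ⧸ K))) with
        mul_comm := fun a b => Subtype.ext ((Subgroup.mem_center_iff.1 b.2) a) }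
    let φ : Q →* Subgroup.center (Q ⧸ K) := MonoidHom.mk' (fun q => ⟨π ⁅x, q⁆, hcen q⟩) (by
      intro a b
      apply Subtype.ext
      change π ⁅x, a * b⁆ = π ⁅x, a⁆ * π ⁅x, b⁆
      have e1 : ⁅x, a * b⁆ = ⁅x, a⁆ * (a * ⁅x, b⁆ * a⁻¹) := by
        simp only [commutatorElement_def]; group
      have e2 : π (a * ⁅x, b⁆ * a⁻¹) = π ⁅x, b⁆ := by
        rw [map_mul, map_mul, (Subgroup.mem_center_iff.1 (hcen b)) (π a), map_inv,
          mul_inv_cancel_right]
      rw [e1, map_mul, e2])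
    have hφm : ∀ q, (φ q) ^ m = 1 := by
      intro q
      apply Subtype.ext
      change (π ⁅x, q⁆) ^ m = 1
      rw [← map_pow]
      exact (QuotientGroup.eq_one_iff _).2 (hm _ (hxy q))
    obtain ⟨y', hy'⟩ := mem_Qm hy
    have h1 : φ y = 1 := by
      have e1 : φ y = Abelianization.lift φ (Abelianization.of y) := by simp
      rw [e1, ← hy', Abelianization.lift_apply_of, map_pow, hφm]
    have h2 : π ⁅x, y⁆ = 1 := congrArg Subtype.val h1
    exact (QuotientGroup.eq_one_iff _).1 h2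

end grp

section main

variable {Q : Type u} [Group Q] {V : Type v} [AddCommGroup V]

/-- The kernel of the action on `W / U`. -/
def Ker (ρ : Q →* Module.End ℤ V) (W U : AddSubgroup V) (hW : Stab ρ W) (hU : Stab ρ U) :
    Subgroup Q where
  carrier := {q | ∀ w ∈ W, ρ q w - w ∈ U}
  mul_mem' := by
    intro a b ha hb w hw
    have : ρ (a * b) w - w = ρ a (ρ b w - w) + (ρ a w - w) := by
      rw [map_mul, Module.End.mul_apply, map_sub]; abel
    rw [this]
    exact U.add_mem (hU a _ (hb w hw)) (ha w hw)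
  one_mem' := by
    intro w _
    rw [map_one, Module.End.one_apply, sub_self]
    exact U.zero_mem
  inv_mem' := by
    intro a ha w hw
    have h1 : ρ a⁻¹ (ρ a w) = w := by
      rw [← Module.End.mul_apply, ← map_mul, inv_mul_cancel, map_one, Module.End.one_apply]
    have : ρ a⁻¹ w - w = -ρ a⁻¹ (ρ a w - w) := by
      rw [map_sub, h1]; abel
    rw [this]
    exact U.neg_mem (hU _ _ (ha w hw))

instance Ker_normal (ρ : Q →* Module.End ℤ V) (W U : AddSubgroup V) (hW : Stab ρ W)
    (hU : Stab ρ U) : (Ker ρ W U hW hU).Normal := by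
  refine ⟨fun q hq x w hw => ?_⟩
  have h1 : ρ x (ρ x⁻¹ w) = w := by
    rw [← Module.End.mul_apply, ← map_mul, mul_inv_cancel, map_one, Module.End.one_apply]
  have h2 : ρ (x * q * x⁻¹) w - w = ρ x (ρ q (ρ x⁻¹ w) - ρ x⁻¹ w) := by
    rw [map_sub, h1, map_mul, map_mul, Module.End.mul_apply, Module.End.mul_apply]
  rw [h2]
  exact hU x _ (hq _ (hW _ w hw))

theorem mem_Ker {ρ : Q →* Module.End ℤ V} {W U : AddSubgroup V} {hW : Stab ρ W}
    {hU : Stab ρ U} {q : Q} : q ∈ Ker ρ W U hW hU ↔ ∀ w ∈ W, ρ q w - w ∈ U := Iff.rfl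

theorem NilF_sub (ρ : Q →* Module.End ℤ V) (Q1 : Subgroup Q) (Q0 : Subgroup Q1)
    (U : AddSubgroup V) (r : ℕ) :
    NilF (ρ.comp Q1.subtype) Q0 U r = NilF ρ (Q0.map Q1.subtype) U r := by
  induction r with
  | zero => rfl
  | succ r ih =>
    ext v
    rw [mem_NilF_succ, mem_NilF_succ, ih]
    constructor
    · rintro h _ ⟨x, hx, rfl⟩
      exact h x hx
    · intro h x hx
      exact h x ⟨x, hx, rfl⟩

theorem Good_sub (ρ : Q →* Module.End ℤ V) (Q1 : Subgroup Q) [hQ : Q1.FiniteIndex]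
    {W U : AddSubgroup V} (h : Good (ρ.comp Q1.subtype) W U) : Good ρ W U := by
  obtain ⟨Q0, hQ0, r, hr⟩ := h
  refine ⟨Q0.map Q1.subtype, ⟨?_⟩, r, ?_⟩
  · rw [Subgroup.index_map_subtype]
    exact mul_ne_zero hQ0.index_ne_zero hQ.index_ne_zero
  · rw [← NilF_sub]; exact hr

theorem FGm_sub {ρ : Q →* Module.End ℤ V} (Q1 : Subgroup Q) [hQ : Q1.FiniteIndex]
    {W U : AddSubgroup V} (hW : Stab ρ W) (hU : Stab ρ U) (h : FGm ρ W U) :
    FGm (ρ.comp Q1.subtype) W U := by
  obtain ⟨S, hS, hSW, hSg⟩ := h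
  have hfin : Finite (Q ⧸ Q1) := inferInstance
  refine ⟨(fun p : (Q ⧸ Q1) × V => ρ (p.1.out)⁻¹ p.2) '' (Set.univ ×ˢ S),
    ((Set.finite_univ).prod hS).image _, ?_, ?_⟩
  · rintro _ ⟨⟨c, s⟩, ⟨_, hs⟩, rfl⟩
    exact hW _ _ (hSW hs)
  · intro X hX hUX hSX
    let X' : AddSubgroup V :=
      { carrier := {v | ∀ q, ρ q v ∈ X}
        add_mem' := fun {a b} ha hb q => by rw [map_add]; exact X.add_mem (ha q) (hb q)
        zero_mem' := fun q => by rw [map_zero]; exact X.zero_mem
        neg_mem' := fun {a} ha q => by rw [map_neg]; exact X.neg_mem (ha q) }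
    have h1 : W ≤ X' := by
      refine hSg X' ?_ ?_ ?_
      · intro q w hw q'
        rw [← Module.End.mul_apply, ← map_mul]
        exact hw _
      · intro u hu q
        exact hUX (hU q u hu)
      · intro s hs q
        have h2 : (((q⁻¹ : Q) : Q ⧸ Q1).out)⁻¹ * q⁻¹ ∈ Q1 := by
          rw [← QuotientGroup.eq, QuotientGroup.out_eq']
        have h3 : q * ((q⁻¹ : Q) : Q ⧸ Q1).out ∈ Q1 := by
          have := Q1.inv_mem h2
          rwa [mul_inv_rev, inv_inv, inv_inv] at this
        have h4 : ρ q s = ρ (q * ((q⁻¹ : Q) : Q ⧸ Q1).out)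
            (ρ (((q⁻¹ : Q) : Q ⧸ Q1).out)⁻¹ s) := by
          rw [← Module.End.mul_apply, ← map_mul, mul_inv_cancel_right]
        rw [h4]
        exact hX ⟨_, h3⟩ _ (hSX ⟨(_, s), ⟨Set.mem_univ _, hs⟩, rfl⟩)
    intro w hw
    have := h1 hw 1
    rwa [map_one, Module.End.one_apply] at this

theorem main (c : ℕ) : ∀ {Q : Type u} [Group Q] [Group.FG Q] (ρ : Q →* Module.End ℤ V)
    (W U : AddSubgroup V) (hW : Stab ρ W) (hU : Stab ρ U), U ≤ W → FGm ρ W U → LVU ρ W U →
    lcs Q c ≤ Ker ρ W U hW hU → Good ρ W U := by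
  induction c with
  | zero =>
    intro Q _ _ ρ W U hW hU _ _ _ hK
    exact ⟨⊤, inferInstance, 1, fun w hw x _ => hK (Subgroup.mem_top x) w hw⟩
  | succ c ih =>
    intro Q _ _ ρ W U hW hU hUW hfg hl hK
    obtain ⟨T, hT, hTc⟩ := fin_lcs (Q := Q) c
    have hc : ∀ z ∈ T, ∀ q, ∀ w ∈ W, ρ z (ρ q w) - ρ q (ρ z w) ∈ U := by
      intro z hz q w hw
      have h1 : ⁅z, q⁆ ∈ lcs Q (c + 1) := Subgroup.commutator_mem_commutator
        (hTc.le (Subgroup.subset_normalClosure hz)) (Subgroup.mem_top _)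
      have h2 := hK h1 (ρ (q * z) w) (hW _ w hw)
      have h3 : ρ z (ρ q w) - ρ q (ρ z w) = ρ ⁅z, q⁆ (ρ (q * z) w) - ρ (q * z) w := by
        rw [← Module.End.mul_apply, ← Module.End.mul_apply, ← Module.End.mul_apply,
          ← map_mul, ← map_mul, ← map_mul]
        congr 3
        rw [commutatorElement_def]; group
      rw [h3]
      exact h2
    obtain ⟨m, hm1, hk⟩ := uniform hW hU hUW hfg hl T hT hc
    refine good_list ρ m hT.toFinset.toList W U hW hU hUW hfg
      (fun z hz => hc z (by simpa using hz)) (fun z hz => hk z (by simpa using hz)) ?_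
    intro W' U' hW' hU' h1 h2 h3 hfg' hD
    have hK' : lcs Q (c + 1) ≤ Ker ρ W' U' hW' hU' := fun q hq w hw => h1 (hK hq w (h3 hw))
    have hTm : ∀ z ∈ T, z ^ m ∈ Ker ρ W' U' hW' hU' := by
      intro z hz w hw
      have := hD z (by simpa using hz) w hw
      rw [map_pow]
      simpa [D] using this
    have hZm := pow_mem_lcs hK' hTc hTm
    have hQ1 := lcs_Qm hK' hZm
    have hfi := Qm_finiteIndex (Q := Q) hm1
    have hfg1 : Group.FG (Qm Q m) := Subgroup.fg_of_index_ne_zero (Qm Q m)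
    refine Good_sub ρ (Qm Q m) (ih (ρ.comp (Qm Q m).subtype) W' U' (fun q => hW' q)
      (fun q => hU' q) h2 (FGm_sub (Qm Q m) hW' hU' hfg') ?_ ?_)
    · intro q w hw
      obtain ⟨j, hj, k, hjk⟩ := hl q w (h3 hw)
      exact ⟨j, hj, k, h1 hjk⟩
    · intro q hq w hw
      refine hQ1 ?_ w hw
      rw [← Subgroup.top_subtype_lowerCentralSeries]
      exact ⟨q, hq, rfl⟩

end main

end Pool.Agent.Y548.Unip
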